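import Pool.Agent.Q47.EB.Ex3

/-!
# Effective abundance for pairs on quotients of complex tori by finite groups

Let `X = V / Γ` be the quotient of a complex torus of dimension `d`, projective or not, by any finite
group, which may contain reflections, and let `B` be an effective divisor with rational coefficients
on `X` such that `m (K_X + B)` is integral and Cartier. The theorem bounds the exponent in the
abundance conjecture by a number which depends only on `d`, and gives a lower bound for it.

`latt`, `IsTorusQuotient`, `LineBundle` and `LineBundle.pow` are defined in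
`Pool.Agent.W594.SYZ.Defs2`; `IsChernForm` and `IsNefForm` in `Pool.Agent.W594.SYZ.TQDefs`;
`OnMirror`, `ramIndex`, `IsRamification` and `IsLogPluricanonical` in `Pool.Agent.TH735.AQ.MirDefs`.

The exponent: the group `G` of the linear parts of `Γ` acts faithfully on `Λ / 3 Λ`, so its order
divides `(3 ^ (4 d ^ 2))!`. The character of `L = O_X(m (K_X + B))` on the lattice vectors in the
kernel of the Chern form has an order dividing `|G|`, the `|G| ^ 2`-th power of `L` is the pullback
of an ample line bundle `A` on a torus quotient, the fourth power of `A` is globally generated on the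
torus, and the norm of the sections for the group of the quotient gives sections on the quotient.

The examples: `ℤ / p` acts on `ℂ × ℂ ^ p` by `(z, w) ↦ (z + 1 / p, w shifted)`, and `ℤ[i]`-translations
give a torus quotient `X` without fixed points, with a map to the quotient of `(ℂ / ℤ[i]) ^ p` by the
cyclic shifts. The line bundle `L` is the product of the pullback of a theta bundle with the character
of order `p` of the covering group.
-/

set_option autoImplicit false

universe u

namespace Pool.Agent.Results.MP_9a2ae6_ag.EffectiveAbundance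

open Pool.Agent.W594.SYZ2 Pool.Agent.TH735.AQ

/-- The line bundle is globally generated: at each point some global section is not zero. -/
def GloballyGenerated {V : Type u} [NormedAddCommGroup V] [NormedSpace ℂ V]
    {Γ : Subgroup (V ≃ᵃ[ℂ] V)} (L : LineBundle Γ) : Prop := ∀ v, ∃ s, L.IsSection s ∧ s v ≠ 0

/-- The exponent `4 ((3 ^ (4 d ^ 2))!) ^ 3`. -/
def N (d : ℕ) : ℕ := 4 * (3 ^ (2 * d) ^ 2).factorial ^ 3

/-- (1) Let `X = V / Γ` be a quotient of a complex torus of dimension `d` by a finite group, `ρ` an
entire function which defines the ramification divisor of `V → X`, `β` an entire function, not zero,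
which defines the pullback of the effective divisor `m B`, and `L = O_X(m (K_X + B))`. Then `K_X + B`
is nef if and only if `L ^ N(d)` is globally generated, and if and only if some power `L ^ k`,
`k ≥ 1`, is globally generated.

(2) For every odd prime `p` there are a smooth quotient `X` of a torus of dimension `p + 1`, by a
group which acts freely and preserves the volume form, and an effective divisor `D` on `X`, given by
`β`, such that `L = O_X(D)` is nef, `L = O_X(m (K_X + D / m))` for all `m`, and `L ^ k` is globally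
generated only if `p` divides `k`. -/
theorem result :
    (∀ (V : Type u) [NormedAddCommGroup V] [NormedSpace ℂ V] [FiniteDimensional ℂ V]
      (Γ : Subgroup (V ≃ᵃ[ℂ] V)), IsTorusQuotient Γ → ∀ (ρ β : V → ℂ) (m : ℕ),
      IsRamification Γ ρ → Differentiable ℂ β → (∃ v, β v ≠ 0) →
      ∀ (L : LineBundle Γ) (H : V → V → ℂ), IsLogPluricanonical L m ρ β → IsChernForm L H →
        (IsNefForm H ↔ GloballyGenerated (L.pow (N (Module.finrank ℂ V)))) ∧
        (IsNefForm H ↔ ∃ k : ℕ, 1 ≤ k ∧ GloballyGenerated (L.pow k))) ∧
    ∀ p : ℕ, p.Prime → p ≠ 2 →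
      ∃ (V : Type) (_ : NormedAddCommGroup V) (_ : NormedSpace ℂ V) (_ : FiniteDimensional ℂ V)
        (Γ : Subgroup (V ≃ᵃ[ℂ] V)) (β : V → ℂ) (L : LineBundle Γ) (H : V → V → ℂ),
        Module.finrank ℂ V = p + 1 ∧ IsTorusQuotient Γ ∧ (∀ γ ∈ Γ, γ ≠ 1 → ∀ v, γ v ≠ v) ∧
        (∀ γ ∈ Γ, LinearMap.det (γ.linear : V →ₗ[ℂ] V) = 1) ∧ IsRamification Γ (fun _ => 1) ∧
        Differentiable ℂ β ∧ (∃ v, β v ≠ 0) ∧
        (∀ m : ℕ, IsLogPluricanonical L m (fun _ => 1) β) ∧ IsChernForm L H ∧ IsNefForm H ∧
        ∀ k : ℕ, GloballyGenerated (L.pow k) → p ∣ k := by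
  refine ⟨?_, fun p hp h2 => Q47.EB.Ex3.exists_pair p hp h2⟩
  intro V _ _ _ Γ hΓ ρ β m hρ hβ hβ0 L H hL hc
  obtain ⟨hH, F, hF, hFe⟩ := hc
  have hpot : TQ.IsPot L H F := ⟨hF, hFe⟩
  have h1 : IsNefForm H → GloballyGenerated (L.pow (N (Module.finrank ℂ V))) := fun hn =>
    Q47.EB.gg_of_pair hΓ hH hpot hρ hβ hβ0 hL hn
  have h2 : ∀ k : ℕ, 1 ≤ k → GloballyGenerated (L.pow k) → IsNefForm H := fun k hk h =>
    Q47.EB.nef_of_gg hΓ hH hpot hk h
  have hN : 1 ≤ N (Module.finrank ℂ V) := Q47.EB.expo_pos _
  exact ⟨⟨h1, h2 _ hN⟩, ⟨fun hn => ⟨_, hN, h1 hn⟩, fun ⟨k, hk, h⟩ => h2 k hk h⟩⟩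

end Pool.Agent.Results.MP_9a2ae6_ag.EffectiveAbundance
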