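import Pool.Agent.Q36.PT.Fi

/-!
# Effective abundance for quotients of products of curves: the system `|48 K_X|`

For the projective manifolds `X` which are birational to a quotient `(C 1 × ... × C n) / G` of a
product of irrational curves by a finite group `G` (which may permute the factors and may have fixed
points, in codimension at least `N`), the equality `κ(X) = ν(X)` is attained by one explicit
pluricanonical system: the `m`-canonical map has an image of dimension exactly `κ(X) = ν(X)`, the
number of the curves `C i` which are not elliptic, for every `m ≥ 48` divisible by `12`, in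
particular for `m = 48`; and for `m = 42` if none of the curves is elliptic. These numbers do not
depend on the dimension, on the curves or on the group.

The language and the definitions of `Pool.Agent.W619` (the file
`MP_c2a5fc_ag/MixedQuotients.lean`) are used; that file has the equality of the two dimensions,
without a bound for the index of the pluricanonical systems.

Proof: an orbifold structure `∑ (1 - 1 / e_q) q` of positive degree on a curve `Q` has two sections
of `48 (K_Q + ∑ (1 - 1 / e_q) q)` and of `42 (K_Q + ∑ (1 - 1 / e_q) q)` (round down: the inequalities
`round48` and `round42` of `Pool.Agent.Q36.PT.Ar`; if `Q` is elliptic or has genus at least `2` one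
uses functions with one double pole, or two differentials). Let `c i`, `c' i` be two such forms on
the quotients of the curves which are not elliptic, chosen such that `G` permutes them. The
elementary symmetric functions of the ratios `c' i / c i`, multiplied by `∏ c i` and by the `m`-th
power of the Jacobian determinant, are `h + 1` sections of `m K_X` whose ratios are algebraically
independent.
-/

set_option autoImplicit false
set_option linter.overlappingInstances false

open FF IntermediateField Pool.Agent.W619.PQ Pool.Agent.W619.PL Pool.Agent.W619.TW
  Pool.Agent.W619.X Pool.Agent.W619.Y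

namespace Pool.Agent.Results.MP_9a2ae6_ag.OneSystemForQuotients

/-- The image of the map given by the sections of `m K_X` has dimension at least `h`: there are
`h + 1` sections of `m K_X` whose ratios to the first one are algebraically independent. -/
def ImageGe (k : Type*) (K : Type*) [Field k] [Field K] [Algebra k K] (n m h : ℕ) : Prop :=
  ∃ ω : Fin (h + 1) → (Fin n → Derivation k K K) → K,
    (∀ l, IsSec k K n (fun _ => False) {1} m 0 (ω l)) ∧
    ∃ D, (∀ l, ω l D ≠ 0) ∧ AlgebraicIndependent k (fun l : Fin h => ω l.succ D / ω 0 D)

/-- **Effective abundance.** Let `F i` (`i < n`) be the function fields of curves `C i`, `L` the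
function field of a projective variety `Z` of dimension `n` with a generically finite rational map to
the product of the curves, `G` a finite group of automorphisms of `L` which permutes the curves
through `σ`, and `X` a projective manifold birational to `Z / G`. Assume `MixedPos`: for some `N ≥ 2`
the fixed locus of each `g ≠ 1` in `G` on the product of the curves is empty or of codimension at
least `N` (for instance `G` acts freely), and for each `i`: `N ≥ 7` (`5` if `3` does not divide the
order of `G`, `4` if the order is odd), or the quotient of `C i` by its stabilizer is irrational or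
has at least `5` branch points (`4` if `C i` is elliptic), or it has an orbifold divisor of positive
degree (nonnegative degree if `C i` is elliptic) with coefficients at most `1 - 1 / N`, or `C i` is
rational. Let `h` be the number of the curves which are not elliptic.

(1) If none of the curves is rational then the `m`-canonical map of `X` has an image of dimension at
least `h` for all `m ≥ 48` divisible by `12`, and for `m = 42` if none of the curves is elliptic.

(2) Let `Z` be the product of the curves. If none of them is rational then `ν(X) ≤ h`, so that
`κ(X) = ν(X) = h` is attained by `|48 K_X|`. If one of them is rational then `κ(X) = ν(X) = -∞`. -/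
theorem result {L : Type} [Field L] [Algebra ℂ L] (n : ℕ) (hn : Algebra.trdeg ℂ L = n)
    (F : Fin n → IntermediateField ℂ L) (hF : ∀ i, IsFF ℂ (F i))
    (halg : Algebra.IsAlgebraic ↥(⨆ i, F i) L)
    (G : Subgroup (L ≃ₐ[ℂ] L)) [Finite G] (σ : G →* Equiv.Perm (Fin n))
    (hσ : ∀ (g : G) i, ∀ z ∈ F i, (g : L ≃ₐ[ℂ] L) z ∈ F (σ g i))
    (h : MixedPos G σ F) :
    ((∀ i, ¬ ∃ t : F i, ℂ⟮t⟯ = ⊤) → ∀ m : ℕ,
      ((48 ≤ m ∧ 12 ∣ m) ∨ (m = 42 ∧ ∀ i, ¬ IsElliptic (F i))) →
      ImageGe ℂ (fixedField G) n m {i | ¬ IsElliptic (F i)}.ncard) ∧
    (⨆ i, F i = ⊤ →
      ((∀ i, ¬ ∃ t : F i, ℂ⟮t⟯ = ⊤) →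
        NumLe ℂ (fixedField G) n (fun _ => False) {i | ¬ IsElliptic (F i)}.ncard) ∧
      ((∃ i, ∃ t : F i, ℂ⟮t⟯ = ⊤) → KodairaNeg ℂ (fixedField G) n ∧
        NumNeg ℂ (fixedField G) n (fun _ => False))) := by
  have hn0 : Algebra.trdeg ℂ L = (0 + n : ℕ) := by rw [hn, zero_add]
  refine ⟨fun hirr m hm => ?_, fun hsup => ?_⟩
  · have h1 := Q36.PT.mixed48 hn0 F halg G σ hσ h hirr m hm
    rw [zero_add] at h1
    exact h1
  · obtain ⟨h1, h2⟩ := upper_mixed pTRANS n hn F hF hsup G
    exact ⟨h2, fun hi => ⟨kodairaNeg_of_not_eff.1 fun h3 => (h1 hi).1 (psef_of_eff h3), (h1 hi).2⟩⟩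

end Pool.Agent.Results.MP_9a2ae6_ag.OneSystemForQuotients
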