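import Pool.Agent.Q47.TR.Final

/-!
# Abundance with real coefficients for pairs on toric bundles over torus quotients

Let `X = V / Γ` be the quotient of a complex torus of any dimension by any finite group (with or
without fixed points and reflections, projective or only Kähler), and let `Y → X` be a toric bundle:
a locally trivial bundle whose fibre is a smooth complete toric variety, twisted by arbitrary line
bundles `c_i` on `X` (for example the projective bundle of a direct sum of line bundles). Let
`Δ = ∑ δ_j B_j` be any effective divisor on `Y` with real coefficients such that the pair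
`(Y_v, Δ_v)` is log canonical (for example klt) for one fibre `Y_v` of `Y → X` (no condition over
the other points, and `Δ` need not be invariant under the torus).

(1) `K_Y + Δ` is nef if and only if it is semiample as an `ℝ`-line bundle: a combination, with real
coefficients `x_k > 0`, of integral divisors `a_k (m K_Y) + ∑ b_{k,j} B_j`, `a_k ≥ 1`, `b_{k,j} ≥ 0`,
which are base point free.

(2) If `Γ` contains no reflections, then it suffices that `K_Y + Δ` is nef on the fibres of `Y → X`.

The toric bundle `Y` is described by Cox coordinates; `IsSmoothFan`, `LinEquiv` and `IsSection` are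
defined in `Pool.Agent.Q47.TB.Defs`, `IsLogCanonical`, `degY`, `facY`, `degR`, `clsY` and `SumOf` in
`Pool.Agent.Q47.TR.Stm`, `IsTorusQuotient` and `LineBundle` (given by a factor of automorphy
`L.e`) in `Pool.Agent.W594.SYZ.Defs2`, `IsChernForm` and `IsNefForm` in
`Pool.Agent.W594.SYZ.TQDefs`, `OnMirror`, `IsRamification` and `IsLogPluricanonical` in
`Pool.Agent.TH735.AQ.MirDefs`.

The proof. Log canonicity on one fibre gives the inequality `∑ δ_j ord(F_j) ≤ A` for all monomial
valuations, hence for each maximal cone `σ` (separation of a point from the Minkowski sum of the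
Newton polytopes) real weights `s_{j,α} ≥ 0` on the exponents of the equations `F_j` with
`∑_α s_{j,α} = δ_j` and `∑ s_{j,α} α = 1 + β_σ`, where `∑ β_{σ,i} D_i` is the divisor in the class of
`K_Y + Δ` on the fibres which vanishes at the point of `σ`. All these weights together solve a system
of linear inequalities with integral coefficients, because nefness of the restriction of `K_Y + Δ`
to the section of `Y → X` given by `σ` is decided by the roots of the reflections. So `K_Y + Δ` is a
positive combination of integral divisors with the same properties, and for those the product of the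
powers of the coefficient functions defines a pair on `X` whose log pluricanonical bundle is nef;
abundance for torus quotients with arbitrary effective boundary gives the sections.
-/

set_option autoImplicit false

universe u w

namespace Pool.Agent.Results.MP_9a2ae6_ag.RealToricBundles

open Pool.Agent.W594.SYZ2 Pool.Agent.TH735.AQ Q47.TB Q47.TR MvPolynomial

variable {V : Type u} [NormedAddCommGroup V] [NormedSpace ℂ V] {Γ : Subgroup (V ≃ᵃ[ℂ] V)}
  {ι : Type w} [Fintype ι] {n : ℕ}

/-- The real class given by `δ` on the fibres is nef: for each cone `σ` it contains an effective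
real divisor `∑ β_i D_i` with `β_i = 0` for `i ∈ σ`. -/
def IsFibreNef (u : ι → Fin n → ℤ) (S : Set (Set ι)) (δ : ι → ℝ) : Prop :=
  ∀ σ ∈ S, ∃ (β : ι → ℝ) (q : Fin n → ℝ), (∀ i, 0 ≤ β i) ∧ (∀ i ∈ σ, β i = 0) ∧
    ∀ i, β i = δ i + ∑ k, q k * u i k

/-- The real class `(δ; H)` on `Y` is nef on the fibres of `Y → X` and on the sections `X → Y` given
by the cones `σ` (the loci `x_i = 0`, `i ∈ σ`): the class on the fibres contains an effective real
divisor `∑ β_i D_i` with `β_i = 0` for `i ∈ σ`, and the restriction `H - ∑ β_i Hc_i` to the section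
is a nef class. (All nef classes have this property.) -/
def IsNef (u : ι → Fin n → ℤ) (S : Set (Set ι)) (Hc : ι → V → V → ℂ) (δ : ι → ℝ)
    (H : V → V → ℂ) : Prop :=
  ∀ σ ∈ S, ∃ (β : ι → ℝ) (q : Fin n → ℝ), (∀ i, 0 ≤ β i) ∧ (∀ i ∈ σ, β i = 0) ∧
    (∀ i, β i = δ i + ∑ k, q k * u i k) ∧ IsNefForm fun v w => H v w - ∑ i, (β i : ℂ) * Hc i v w

/-- Let `X = V / Γ` be a torus quotient, let `ρ` define the ramification divisor of `V → X`, let
`K = O_X(m K_X)`, `m ≥ 1`, let `Y → X` be the toric bundle given by a smooth complete fan with the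
rays `u i` and by line bundles `c i` on `X` with Chern forms `Hc i`, let `B_1, …, B_r` be effective
divisors on `Y`, where `B_j` is given by the section `F_j` of `O_Y(d_j; M_j)`, and let `δ_j > 0` be
real numbers, `Δ = ∑ δ_j B_j`. Assume that the fibre `(Y_v, Δ_v)` is log canonical for some `v = v₀`.

(1) `K_Y + Δ` is nef if and only if it is semiample: `K_Y + Δ = ∑ x_k (a_k (m K_Y) + ∑ b_{k,j} B_j)`
with real `x_k > 0`, integers `a_k ≥ 1`, `b_{k,j} ≥ 0`, and at each point of `Y` some global section
of `O_Y(a_k (m K_Y) + ∑ b_{k,j} B_j)` is not zero.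

(2) If `Γ` contains no reflections, then `K_Y + Δ` is semiample if and only if it is nef on the
fibres of `Y → X`. -/
theorem result [FiniteDimensional ℂ V] (Γ : Subgroup (V ≃ᵃ[ℂ] V)) (hΓ : IsTorusQuotient Γ)
    (ρ : V → ℂ) (hρ : IsRamification Γ ρ) (m : ℕ) (hm : 1 ≤ m) (K : LineBundle Γ)
    (hK : Pool.Agent.TH735.AQ.IsLogPluricanonical K m ρ fun _ => 1) (HK : V → V → ℂ) (hHK : IsChernForm K HK)
    (n : ℕ) (u : ι → Fin n → ℤ) (S : Set (Set ι)) (hS : IsSmoothFan u S)
    (c : ι → LineBundle Γ) (Hc : ι → V → V → ℂ) (hc : ∀ i, IsChernForm (c i) (Hc i))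
    (r : ℕ) (M : Fin r → LineBundle Γ) (HM : Fin r → V → V → ℂ)
    (hHM : ∀ j, IsChernForm (M j) (HM j)) (d : Fin r → ι → ℤ)
    (F : Fin r → V → MvPolynomial ι ℂ) (hF : ∀ j, IsSection u c (d j) (M j).e (F j))
    (δ : Fin r → ℝ) (hδ : ∀ j, 0 < δ j) (v₀ : V)
    (hlc : Q47.TR.IsLogCanonical S δ fun j => F j v₀) :
    (IsNef u S Hc (degR d δ) (clsY HK HM Hc (1 / m) δ) ↔
      SumOf m δ fun a b => ∀ (v : V) (x : ι → ℂ), {i | x i = 0} ∈ S →
        ∃ G, IsSection u c (degY d m a b) (facY K M c m a b) G ∧ eval x (G v) ≠ 0) ∧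
    ((∀ v, ¬ OnMirror Γ v) →
      (IsFibreNef u S (degR d δ) ↔
        SumOf m δ fun a b => ∀ (v : V) (x : ι → ℂ), {i | x i = 0} ∈ S →
          ∃ G, IsSection u c (degY d m a b) (facY K M c m a b) G ∧ eval x (G v) ≠ 0)) := by
  refine ⟨⟨fun h => ?_, fun h => nef_of_semiample hΓ hm hHK hc hHM h⟩,
    fun hmir => ⟨fun h => ?_, fun h σ hσ => ?_⟩⟩
  · refine semiample hΓ hρ hm hK hHK hS hc hHM hF hδ hlc fun σ hσ => ?_
    obtain ⟨β, q, h0, h1, h2, h3⟩ := h σ hσ
    exact ⟨β, q, h0, h1, h2, Or.inr fun a _ => h3 a⟩
  · refine semiample hΓ hρ hm hK hHK hS hc hHM hF hδ hlc fun σ hσ => ?_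
    obtain ⟨β, q, h0, h1, h2⟩ := h σ hσ
    exact ⟨β, q, h0, h1, h2, Or.inl hmir⟩
  · obtain ⟨β, q, h0, h1, h2, -⟩ := nef_of_semiample hΓ hm hHK hc hHM h σ hσ
    exact ⟨β, q, h0, h1, h2⟩

end Pool.Agent.Results.MP_9a2ae6_ag.RealToricBundles
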